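import Pool.Agent.Q191.IYB.Reduction

/-!
# MP_bb5d5a_al: a soluble group with IYB Sylow subgroups that is not an IYB-group

`H = P ⋊ Q` with `P` of order `3^5` and class `3`, and `Q` the quaternion group of order `8`.
-/

set_option autoImplicit false

namespace Pool.Agent.Results.MP_bb5d5a_al.SylowNotEnough

open Pool.Agent.Q191.IYB

/-- **The answer to Q1 is negative.** There is a finite soluble group `H`, of order
`1944 = 2^3 * 3^5`, all of whose Sylow subgroups are IYB-groups, and which is not itself an
IYB-group. -/
theorem result : ∃ (H : Type) (_ : Group H), Nat.card H = 1944 ∧ Group.IsSolvable H ∧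
    (∀ (p : ℕ) [Fact p.Prime] (S : Sylow p H), IsIYB S) ∧ ¬ IsIYB H :=
  ⟨G, inferInstance, card_G, isSolvable_G, fun p _ S => isIYB_sylow p S, not_isIYB_G⟩

end Pool.Agent.Results.MP_bb5d5a_al.SylowNotEnough
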